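import Mathlib

set_option autoImplicit false

/-! The augmentation filtration of a group algebra over `ZMod p` and the dimension subgroups. -/

namespace Pool.Agent.H257Z.GS

open MonoidAlgebra
open scoped commutatorElement Pointwise

section
variable (p : ℕ) (G : Type) [Group G]

/-- The augmentation ideal as a submodule. -/
noncomputable abbrev aug : Submodule (ZMod p) (MonoidAlgebra (ZMod p) G) :=
  Submodule.span (ZMod p) (Set.range fun g : G => MonoidAlgebra.of (ZMod p) G g - 1)

/-- The powers of the augmentation ideal, the zeroth being the whole algebra. -/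
noncomputable def J (n : ℕ) : Submodule (ZMod p) (MonoidAlgebra (ZMod p) G) := aug p G ^ n * ⊤

variable {p G}

theorem sub_one_mem_aug (g : G) : of (ZMod p) G g - 1 ∈ aug p G :=
  Submodule.subset_span ⟨g, rfl⟩

theorem aug_mul_top : aug p G * ⊤ ≤ aug p G := by
  rw [Submodule.mul_le]
  intro x hx a _
  induction a using MonoidAlgebra.induction_on with
  | of g =>
    induction hx using Submodule.span_induction with
    | mem x hx =>
      obtain ⟨h, rfl⟩ := hx
      have : (of (ZMod p) G h - 1) * of (ZMod p) G g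
          = (of (ZMod p) G (h * g) - 1) - (of (ZMod p) G g - 1) := by
        rw [map_mul]; noncomm_ring
      simp only []
      rw [this]
      exact Submodule.sub_mem _ (sub_one_mem_aug _) (sub_one_mem_aug _)
    | zero => simp
    | add x y _ _ h1 h2 => rw [add_mul]; exact Submodule.add_mem _ h1 h2
    | smul c x _ h => rw [smul_mul_assoc]; exact Submodule.smul_mem _ _ h
  | add a b h1 h2 => rw [mul_add]; exact Submodule.add_mem _ (h1 trivial) (h2 trivial)
  | smul c a h => rw [mul_smul_comm]; exact Submodule.smul_mem _ _ (h trivial)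

theorem top_mul_aug : ⊤ * aug p G ≤ aug p G := by
  rw [Submodule.mul_le]
  intro a _ x hx
  induction a using MonoidAlgebra.induction_on with
  | of g =>
    induction hx using Submodule.span_induction with
    | mem x hx =>
      obtain ⟨h, rfl⟩ := hx
      have : of (ZMod p) G g * (of (ZMod p) G h - 1)
          = (of (ZMod p) G (g * h) - 1) - (of (ZMod p) G g - 1) := by
        rw [map_mul]; noncomm_ring
      simp only []
      rw [this]
      exact Submodule.sub_mem _ (sub_one_mem_aug _) (sub_one_mem_aug _)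
    | zero => simp
    | add x y _ _ h1 h2 => rw [mul_add]; exact Submodule.add_mem _ h1 h2
    | smul c x _ h => rw [mul_smul_comm]; exact Submodule.smul_mem _ _ h
  | add a b h1 h2 => rw [add_mul]; exact Submodule.add_mem _ (h1 trivial) (h2 trivial)
  | smul c a h => rw [smul_mul_assoc]; exact Submodule.smul_mem _ _ (h trivial)

theorem le_mul_top (M : Submodule (ZMod p) (MonoidAlgebra (ZMod p) G)) : M ≤ M * ⊤ := by
  intro x hx
  simpa using Submodule.mul_mem_mul hx (Submodule.mem_top (x := (1 : MonoidAlgebra (ZMod p) G)))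

theorem J_zero : J p G 0 = ⊤ := by
  simp [J]

theorem J_succ (n : ℕ) : J p G (n + 1) = aug p G ^ (n + 1) := by
  apply le_antisymm
  · rw [J, pow_succ, mul_assoc]
    exact mul_le_mul_right aug_mul_top _
  · exact le_mul_top _

theorem J_mul_top (n : ℕ) : J p G n * ⊤ ≤ J p G n := by
  rw [J, mul_assoc]
  exact mul_le_mul_right le_top _

theorem top_mul_J (n : ℕ) : ⊤ * J p G n ≤ J p G n := by
  cases n with
  | zero => rw [J_zero]; exact le_top
  | succ n =>
    rw [J_succ, pow_succ', ← mul_assoc]
    exact mul_le_mul_left top_mul_aug _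

theorem J_mul_J (m n : ℕ) : J p G m * J p G n ≤ J p G (m + n) := by
  calc J p G m * J p G n = aug p G ^ m * (⊤ * J p G n) := by rw [J, mul_assoc]
    _ ≤ aug p G ^ m * J p G n := mul_le_mul_right (top_mul_J n) _
    _ = J p G (m + n) := by rw [J, J, pow_add, mul_assoc]

theorem J_succ_le (n : ℕ) : J p G (n + 1) ≤ J p G n := by
  rw [J, J, pow_succ, mul_assoc]
  exact mul_le_mul_right le_top _

theorem J_anti : Antitone (J p G) := antitone_nat_of_succ_le J_succ_le

theorem J_mul_right {n : ℕ} {x : MonoidAlgebra (ZMod p) G} (hx : x ∈ J p G n)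
    (a : MonoidAlgebra (ZMod p) G) : x * a ∈ J p G n :=
  J_mul_top n (Submodule.mul_mem_mul hx Submodule.mem_top)

theorem J_mul_left {n : ℕ} {x : MonoidAlgebra (ZMod p) G} (hx : x ∈ J p G n)
    (a : MonoidAlgebra (ZMod p) G) : a * x ∈ J p G n :=
  top_mul_J n (Submodule.mul_mem_mul Submodule.mem_top hx)

theorem J_mul {m n : ℕ} {x y : MonoidAlgebra (ZMod p) G} (hx : x ∈ J p G m) (hy : y ∈ J p G n) :
    x * y ∈ J p G (m + n) :=
  J_mul_J m n (Submodule.mul_mem_mul hx hy)

theorem J_pow {m : ℕ} {x : MonoidAlgebra (ZMod p) G} (hx : x ∈ J p G m) (k : ℕ) :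
    x ^ k ∈ J p G (k * m) := by
  induction k with
  | zero => simp [J_zero]
  | succ k ih => rw [pow_succ, Nat.succ_mul]; exact J_mul ih hx

theorem sub_one_mem_J (g : G) : of (ZMod p) G g - 1 ∈ J p G 1 := by
  rw [J_succ, zero_add, pow_one]; exact sub_one_mem_aug g

variable (p G)

/-- The dimension subgroups. -/
noncomputable def D (n : ℕ) : Subgroup G where
  carrier := {g | of (ZMod p) G g - 1 ∈ J p G n}
  one_mem' := by
    show of (ZMod p) G 1 - 1 ∈ J p G n
    rw [map_one, sub_self]; exact Submodule.zero_mem _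
  mul_mem' := by
    intro g h hg hh
    have : of (ZMod p) G (g * h) - 1
        = (of (ZMod p) G g - 1) * of (ZMod p) G h + (of (ZMod p) G h - 1) := by
      rw [map_mul]; noncomm_ring
    simp only [Set.mem_ofPred_eq] at *
    rw [this]
    exact Submodule.add_mem _ (J_mul_right hg _) hh
  inv_mem' := by
    intro g hg
    have h1 : of (ZMod p) G g * of (ZMod p) G g⁻¹ = 1 := by rw [← map_mul]; simp [one_def]
    have : of (ZMod p) G g⁻¹ - 1 = -((of (ZMod p) G g - 1) * of (ZMod p) G g⁻¹) := by
      rw [sub_mul, h1]; noncomm_ring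
    simp only [Set.mem_ofPred_eq] at *
    rw [this]
    exact Submodule.neg_mem _ (J_mul_right hg _)

variable {p G}

theorem mem_D {n : ℕ} {g : G} : g ∈ D p G n ↔ of (ZMod p) G g - 1 ∈ J p G n := Iff.rfl

theorem D_anti : Antitone (D p G) := fun _ _ h _ hg => J_anti h hg

theorem mem_D_one (g : G) : g ∈ D p G 1 := sub_one_mem_J g

theorem mem_D_zero (g : G) : g ∈ D p G 0 := D_anti (Nat.zero_le 1) (mem_D_one g)

theorem comm_mem_D {m n : ℕ} {g h : G} (hg : g ∈ D p G m) (hh : h ∈ D p G n) :
    ⁅g, h⁆ ∈ D p G (m + n) := by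
  rw [mem_D] at *
  have h1 : of (ZMod p) G h * of (ZMod p) G g * of (ZMod p) G g⁻¹ * of (ZMod p) G h⁻¹ = 1 := by
    rw [← map_mul, ← map_mul, ← map_mul]; simp [one_def]
  have : of (ZMod p) G ⁅g, h⁆ - 1
      = ((of (ZMod p) G g - 1) * (of (ZMod p) G h - 1)
        - (of (ZMod p) G h - 1) * (of (ZMod p) G g - 1))
          * (of (ZMod p) G g⁻¹ * of (ZMod p) G h⁻¹) := by
    rw [commutatorElement_def, map_mul, map_mul, map_mul]
    conv_lhs => rw [← h1]
    noncomm_ring
  rw [this]
  refine J_mul_right (Submodule.sub_mem _ (J_mul hg hh) ?_) _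
  rw [add_comm]
  exact J_mul hh hg

instance D_normal (n : ℕ) : (D p G n).Normal where
  conj_mem g hg x := by
    have h1 : ⁅x, g⁆ ∈ D p G n := by simpa using comm_mem_D (mem_D_zero x) hg
    have : x * g * x⁻¹ = ⁅x, g⁆ * g := by rw [commutatorElement_def]; group
    rw [this]
    exact Subgroup.mul_mem _ h1 hg

variable [Fact p.Prime]

instance : CharP (MonoidAlgebra (ZMod p) G) p :=
  charP_of_injective_algebraMap (algebraMap (ZMod p) (MonoidAlgebra (ZMod p) G)).injective p

theorem pow_mem_D {n : ℕ} {g : G} (hg : g ∈ D p G n) (k : ℕ) :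
    g ^ p ^ k ∈ D p G (p ^ k * n) := by
  rw [mem_D] at *
  have := sub_pow_char_pow_of_commute (p := p) (n := k) (Commute.one_right (of (ZMod p) G g))
  rw [one_pow] at this
  rw [map_pow, ← this]
  exact J_pow hg _

end

end Pool.Agent.H257Z.GS
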