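import Pool.Agent.H257Z.GS.Schreier

set_option autoImplicit false

/-! Chains of subgroups of index `p`, and the number of surviving Schreier generators. -/

namespace Pool.Agent.H257Z.GS

open scoped commutatorElement Pointwise

/-- The number of exponent vectors with weighted sum below a threshold. -/
def cnt (p : ℕ) : List ℕ → ℤ → ℕ
  | [], θ => if 0 < θ then 1 else 0
  | e :: es, θ => ∑ a : Fin p, cnt p es (θ - (a : ℕ) * e)

theorem cnt_le (p : ℕ) (es : List ℕ) : ∀ θ, cnt p es θ ≤ p ^ es.length := by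
  induction es with
  | nil => intro θ; simp only [cnt]; split_ifs <;> simp
  | cons e es ih =>
    intro θ
    simp only [cnt, List.length_cons, pow_succ']
    refine (Finset.sum_le_card_nsmul _ _ _ fun a _ => ih _).trans ?_
    simp

theorem cnt_add_le (p : ℕ) (es : List ℕ) : ∀ θ θ' : ℤ, θ + θ' ≤ ((p : ℤ) - 1) * es.sum + 1 →
    cnt p es θ + cnt p es θ' ≤ p ^ es.length := by
  induction es with
  | nil =>
    intro θ θ' h
    simp only [cnt, List.sum_nil, Nat.cast_zero, mul_zero, zero_add, List.length_nil,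
      pow_zero] at *
    split_ifs <;> omega
  | cons e es ih =>
    intro θ θ' h
    simp only [cnt, List.length_cons, pow_succ']
    rw [← Equiv.sum_comp Fin.revPerm (fun a : Fin p => cnt p es (θ' - (a : ℕ) * e)),
      ← Finset.sum_add_distrib]
    refine (Finset.sum_le_card_nsmul _ _ (p ^ es.length) fun a _ => ih _ _ ?_).trans (by simp)
    simp only [Fin.revPerm_apply, Fin.val_rev, List.sum_cons, Nat.cast_add] at *
    have := a.2
    rw [Nat.cast_sub (by omega), Nat.cast_add, Nat.cast_one]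
    nlinarith

/-- A bound for the number of generators born along a chain. -/
def nb (p : ℕ) : ℕ → ℕ
  | 0 => 0
  | k + 1 => p * nb p k + 1

theorem nb_lt {p : ℕ} (hp : 2 ≤ p) (k : ℕ) : nb p k + 1 ≤ p ^ k := by
  induction k with
  | zero => simp [nb]
  | succ k ih => rw [nb, pow_succ]; nlinarith

section
variable (p : ℕ) {G : Type} [Group G] {d : ℕ} (x : Fin d → G) (Y : ℕ → Finset G)

/-- The words that can occur as Schreier generators, with their sizes. -/
inductive InW : G → ℕ → Prop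
  | gen (i : Fin d) : InW (x i) 0
  | pow (y : G) (e S : ℕ) : y ∈ Y e → 1 ≤ e → InW (y ^ p) (S + e)
  | step (z : G) (S : ℕ) (y : G) (e c a : ℕ) : InW z S → y ∈ Y e → 1 ≤ e → c < p → a < p →
      InW (ic (z * (y ^ c)⁻¹) y a) (S + e)

/-- One step down, of level `e`. -/
def Step (K H : Subgroup G) (e : ℕ) : Prop :=
  1 ≤ e ∧ D p G (e + 1) ≤ H ∧ ∃ y ∈ Y e, y ∉ H ∧ K = H ⊔ Subgroup.zpowers y

/-- A chain of steps down from `K`; the last level is at the head of the list. -/
inductive Steps (K : Subgroup G) : Subgroup G → List ℕ → Prop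
  | nil : Steps K K []
  | cons (M H : Subgroup G) (e : ℕ) (es : List ℕ) : Steps K M es → Step p Y M H e →
      Steps K H (e :: es)

/-- `K` is generated modulo `N` by `m` words of size `S`. -/
def Gen (N K : Subgroup G) (S m : ℕ) : Prop :=
  ∃ (ι : Type) (_ : Fintype ι) (z : ι → G), Fintype.card ι = m ∧ (∀ i, InW p x Y (z i) S) ∧
    K = Subgroup.closure (Set.range z) ⊔ N

variable {p x Y}

theorem Step.le {K H : Subgroup G} {e : ℕ} (h : Step p Y K H e) : H ≤ K := by
  obtain ⟨-, -, y, -, -, rfl⟩ := h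
  exact le_sup_left

theorem Steps.le {K H : Subgroup G} {es : List ℕ} (h : Steps p Y K H es) : H ≤ K := by
  induction h with
  | nil => exact le_rfl
  | cons M H e es _ h2 ih => exact h2.le.trans ih

theorem Steps.pos {K H : Subgroup G} {es : List ℕ} (h : Steps p Y K H es) : ∀ e ∈ es, 1 ≤ e := by
  induction h with
  | nil => simp
  | cons M H e es _ h2 ih =>
    intro a ha
    rcases List.mem_cons.1 ha with rfl | ha
    · exact h2.1
    · exact ih a ha

theorem Steps.split {K : Subgroup G} (es1 es2 : List ℕ) : ∀ {H : Subgroup G},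
    Steps p Y K H (es2 ++ es1) → ∃ M, Steps p Y K M es1 ∧ Steps p Y M H es2 := by
  induction es2 with
  | nil => intro H h; exact ⟨H, h, Steps.nil⟩
  | cons e es ih =>
    intro H h
    rw [List.cons_append] at h
    cases h with
    | cons M _ _ _ h1 h2 =>
      obtain ⟨L, h3, h4⟩ := ih h1
      exact ⟨L, h3, Steps.cons M H e es h4 h2⟩

theorem conj_mem_of_D {H : Subgroup G} {e : ℕ} (hH : D p G (e + 1) ≤ H) {y : G}
    (hy : y ∈ D p G e) : ∀ h ∈ H, y * h * y⁻¹ ∈ H := by
  intro h hh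
  have : y * h * y⁻¹ = ⁅y, h⁆ * h := by rw [commutatorElement_def]; group
  rw [this]
  exact H.mul_mem (hH (comm_mem_D hy (mem_D_one h))) hh

theorem ic_mem_D {w y : G} {δ e : ℕ} (hw : w ∈ D p G δ) (hy : y ∈ D p G e) (a : ℕ) :
    ic w y a ∈ D p G (δ + a * e) := by
  induction a with
  | zero => simpa [ic] using hw
  | succ a ih =>
    have := comm_mem_D hy ih
    rw [ic]
    convert this using 2
    ring

variable [Fact p.Prime]

theorem pow_mem_of_D {H : Subgroup G} {e : ℕ} (he : 1 ≤ e) (hH : D p G (e + 1) ≤ H) {y : G}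
    (hy : y ∈ D p G e) : y ^ p ∈ H := by
  have h1 := pow_mem_D hy 1
  rw [pow_one] at h1
  have h2 : 2 ≤ p := (Fact.out : p.Prime).two_le
  exact hH (D_anti (by nlinarith) h1)

theorem block (hY : ∀ e, ∀ y ∈ Y e, y ∈ D p G e) {N K H : Subgroup G} [N.Normal] {es : List ℕ}
    (h : Steps p Y K H es) (hN : N ≤ H) {S m : ℕ} (hK : Gen p x Y N K S m) :
    ∃ (ι : Type) (_ : Fintype ι) (z : ι → G) (δ : ι → ℕ),
      (∀ i, InW p x Y (z i) (S + es.sum)) ∧ (∀ i, z i ∈ D p G (δ i)) ∧
      H = Subgroup.closure (Set.range z) ⊔ N ∧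
      ∀ θ : ℤ, (∑ i, if (δ i : ℤ) < θ then 1 else 0) ≤ m * cnt p es θ + nb p es.length := by
  have hp : p.Prime := Fact.out
  induction h with
  | nil =>
    obtain ⟨ι, _, z, h1, h2, h3⟩ := hK
    refine ⟨ι, inferInstance, z, fun _ => 0, by simpa using h2, fun i => mem_D_zero _, h3, ?_⟩
    intro θ
    simp only [Nat.cast_zero, cnt, List.length_nil, nb, add_zero, Finset.sum_const,
      Finset.card_univ, h1, smul_eq_mul, le_refl]
  | cons M H e es h1 h2 ih =>
    obtain ⟨ι, _, z, δ, h3, h4, h5, h6⟩ := ih (hN.trans h2.le)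
    obtain ⟨he, hD, y, hyY, hyH, hM⟩ := h2
    have hyD := hY e y hyY
    have hy := conj_mem_of_D hD hyD
    have hyp := pow_mem_of_D he hD hyD
    have hz : ∀ i, ∃ c < p, z i * (y ^ c)⁻¹ ∈ H := by
      intro i
      refine exists_coset hp.pos hy hyp ?_
      rw [← hM, h5]
      exact Subgroup.mem_sup_left (Subgroup.subset_closure ⟨i, rfl⟩)
    choose c hc1 hc2 using hz
    have hw : ∀ i, z i * (y ^ c i)⁻¹ ∈ D p G (δ i) := by
      intro i
      by_cases hi : δ i ≤ e
      · exact (D p G _).mul_mem (h4 i) ((D p G _).inv_mem ((D p G _).pow_mem (D_anti hi hyD) _))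
      · have h7 : z i ∈ H := hD (D_anti (by omega) (h4 i))
        have h8 : y ^ c i ∈ H := H.inv_mem_iff.1 ((H.mul_mem_cancel_left h7).1 (hc2 i))
        rw [eq_zero_of_pow_mem hp hyH hyp (hc1 i) h8]
        simpa using h4 i
    refine ⟨(ι × Fin p) ⊕ Unit, inferInstance,
      Sum.elim (fun q : ι × Fin p => ic (z q.1 * (y ^ c q.1)⁻¹) y q.2) (fun _ : Unit => y ^ p),
      Sum.elim (fun q : ι × Fin p => δ q.1 + q.2 * e) (fun _ : Unit => 0), ?_, ?_, ?_, ?_⟩
    · have hs : S + (e :: es).sum = S + es.sum + e := by rw [List.sum_cons]; ring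
      rw [hs]
      rintro (q | u)
      · exact InW.step _ _ _ _ _ _ (h3 _) hyY he (hc1 _) q.2.2
      · exact InW.pow _ _ _ hyY he
    · rintro (q | u)
      · exact ic_mem_D (hw _) hyD _
      · exact mem_D_zero _
    · refine schreier hp hN hy hyp hyH z c hc2 ?_
      rw [← h5, hM]
      exact le_sup_left
    · intro θ
      rw [Fintype.sum_sum_type, Fintype.sum_prod_type_right]
      simp only [Sum.elim_inl, Sum.elim_inr, cnt, List.length_cons, nb]
      have h7 : ∀ a : Fin p, (∑ i, if ((δ i + a * e : ℕ) : ℤ) < θ then 1 else 0)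
          ≤ m * cnt p es (θ - (a : ℕ) * e) + nb p es.length := by
        intro a
        refine le_trans (le_of_eq ?_) (h6 _)
        refine Finset.sum_congr rfl fun i _ => ?_
        push_cast
        simp only [lt_sub_iff_add_lt]
      have h8 := Finset.sum_le_sum (s := Finset.univ) fun a _ => h7 a
      rw [Finset.sum_add_distrib, ← Finset.mul_sum] at h8
      simp only [Finset.sum_const, Finset.card_univ, Fintype.card_fin, smul_eq_mul] at h8
      rw [← add_assoc]
      refine Nat.add_le_add h8 ?_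
      rw [Fintype.sum_unique]
      split_ifs <;> omega

theorem prune (hY : ∀ e, ∀ y ∈ Y e, y ∈ D p G e) {N K H : Subgroup G} [N.Normal] {s : ℕ}
    (hR : ∀ S z, 1 ≤ S → InW p x Y z S → z ∈ D p G (s * S) → z ∈ N) {es : List ℕ}
    (h : Steps p Y K H es) (hN : N ≤ H) {S m : ℕ} (hK : Gen p x Y N K S m)
    (hS : 1 ≤ S + es.sum) :
    ∃ m', Gen p x Y N H (S + es.sum) m' ∧
      m' ≤ m * cnt p es ((s * (S + es.sum) : ℕ) : ℤ) + nb p es.length := by
  classical
  obtain ⟨ι, _, z, δ, h1, h2, h3, h4⟩ := block hY h hN hK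
  refine ⟨_, ⟨{i // δ i < s * (S + es.sum)}, inferInstance, fun i => z i, rfl,
    fun i => h1 i, ?_⟩, ?_⟩
  · rw [h3]
    apply le_antisymm
    · refine sup_le ?_ le_sup_right
      rw [Subgroup.closure_le]
      rintro _ ⟨i, rfl⟩
      by_cases hi : δ i < s * (S + es.sum)
      · exact Subgroup.mem_sup_left (Subgroup.subset_closure ⟨⟨i, hi⟩, rfl⟩)
      · exact Subgroup.mem_sup_right (hR _ _ hS (h1 i) (D_anti (not_lt.1 hi) (h2 i)))
    · refine sup_le_sup_right (Subgroup.closure_mono ?_) _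
      rintro _ ⟨i, rfl⟩
      exact ⟨i, rfl⟩
  · refine le_trans (le_of_eq ?_) (h4 _)
    rw [Fintype.card_subtype, Finset.card_filter]
    refine Finset.sum_congr rfl fun i _ => ?_
    simp only [Nat.cast_lt]

omit [Fact p.Prime] in
theorem gen_top (hx : Subgroup.closure (Set.range x) = ⊤) (N : Subgroup G) :
    Gen p x Y N ⊤ 0 d :=
  ⟨Fin d, inferInstance, x, by simp, fun i => InW.gen i, by simp [hx]⟩

theorem gen_crude (hx : Subgroup.closure (Set.range x) = ⊤)
    (hY : ∀ e, ∀ y ∈ Y e, y ∈ D p G e) {N H : Subgroup G} [N.Normal] {s : ℕ}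
    (hR : ∀ S z, 1 ≤ S → InW p x Y z S → z ∈ D p G (s * S) → z ∈ N) {es : List ℕ}
    (h : Steps p Y ⊤ H es) (hN : N ≤ H) :
    ∃ c, Gen p x Y N H es.sum c ∧ c ≤ (d + 1) * p ^ es.length := by
  have hp : 2 ≤ p := (Fact.out : p.Prime).two_le
  cases es with
  | nil =>
    cases h
    exact ⟨d, gen_top hx N, by simp⟩
  | cons e es =>
    have h1 := h.pos e (by simp)
    obtain ⟨c, h2, h3⟩ := prune hY hR h hN (gen_top hx N) (by simp; omega)
    rw [zero_add] at h2
    refine ⟨c, h2, h3.trans ?_⟩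
    have h4 := nb_lt hp (e :: es).length
    have h5 := Nat.mul_le_mul_left d (cnt_le p (e :: es) ((s * (0 + (e :: es).sum) : ℕ) : ℤ))
    rw [add_mul]
    omega

theorem sum_le_sum_of_sorted {es1 es2 : List ℕ} (h : ∀ a ∈ es2, ∀ b ∈ es1, b ≤ a)
    (hl : es1.length ≤ es2.length) : es1.sum ≤ es2.sum := by
  have h1 := List.sum_le_card_nsmul es1 (es1.toFinset.sup id)
    fun b hb => Finset.le_sup (f := id) (List.mem_toFinset.2 hb)
  have h2 := List.card_nsmul_le_sum es2 (es1.toFinset.sup id)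
    fun a ha => Finset.sup_le fun b hb => h a ha b (List.mem_toFinset.1 hb)
  simp only [smul_eq_mul] at h1 h2
  exact h1.trans ((Nat.mul_le_mul_right _ hl).trans h2)

theorem gen_fine (hx : Subgroup.closure (Set.range x) = ⊤)
    (hY : ∀ e, ∀ y ∈ Y e, y ∈ D p G e) {N : Subgroup G} [N.Normal] {s : ℕ} (hs : 4 * s + 1 ≤ p)
    (hR : ∀ S z, 1 ≤ S → InW p x Y z S → z ∈ D p G (s * S) → z ∈ N) (m : ℕ) :
    ∀ (H : Subgroup G) (es : List ℕ), Steps p Y ⊤ H es → es.Pairwise (· ≥ ·) → N ≤ H →
      2 ^ m ≤ es.length →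
      ∃ c, Gen p x Y N H es.sum c ∧ 2 ^ m * c ≤ (d + 1 + m) * p ^ es.length := by
  have hp : 2 ≤ p := (Fact.out : p.Prime).two_le
  induction m with
  | zero =>
    intro H es h _ hN _
    simpa using gen_crude hx hY hR h hN
  | succ m ih =>
    intro H es h hsort hN hl
    obtain ⟨es2, es1, rfl, hl1, hl2⟩ : ∃ es2 es1 : List ℕ, es = es2 ++ es1 ∧
        2 ^ m ≤ es1.length ∧ es1.length ≤ es2.length := by
      refine ⟨es.take (es.length - es.length / 2), es.drop (es.length - es.length / 2),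
        (List.take_append_drop _ _).symm, ?_, ?_⟩
      · rw [List.length_drop]; rw [pow_succ] at hl; omega
      · rw [List.length_drop, List.length_take]; omega
    obtain ⟨M, h1, h2⟩ := Steps.split es1 es2 h
    rw [List.pairwise_append] at hsort
    obtain ⟨c1, h3, h4⟩ := ih M es1 h1 hsort.2.1 (hN.trans h2.le) hl1
    have h5 : es1.sum ≤ es2.sum := sum_le_sum_of_sorted hsort.2.2 hl2
    have hm : m + 1 ≤ 2 ^ m := Nat.lt_two_pow_self
    have h6 : 1 ≤ es2.sum := by
      have := List.card_nsmul_le_sum es2 1 h2.pos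
      simp only [smul_eq_mul, mul_one] at this
      omega
    obtain ⟨c, h7, h8⟩ := prune hY hR h2 hN h3 (by omega)
    refine ⟨c, by rw [List.sum_append, add_comm]; exact h7, ?_⟩
    have h9 := cnt_add_le p es2 ((s * (es1.sum + es2.sum) : ℕ) : ℤ)
      ((s * (es1.sum + es2.sum) : ℕ) : ℤ) (by
        have h5' : (es1.sum : ℤ) ≤ es2.sum := by exact_mod_cast h5
        have hs' : 4 * (s : ℤ) + 1 ≤ p := by exact_mod_cast hs
        have h0 : (0 : ℤ) ≤ s := Int.natCast_nonneg s
        have h0' : (0 : ℤ) ≤ es2.sum := Int.natCast_nonneg _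
        rw [Nat.cast_mul, Nat.cast_add]
        nlinarith)
    have h10 := nb_lt hp es2.length
    have h11 : 2 ^ (m + 1) ≤ p ^ es1.length :=
      (Nat.pow_le_pow_right (by norm_num) (hm.trans hl1)).trans (Nat.pow_le_pow_left hp _)
    rw [List.length_append, pow_add p]
    set t := cnt p es2 ((s * (es1.sum + es2.sum) : ℕ) : ℤ)
    set A := p ^ es1.length
    set B := p ^ es2.length
    calc 2 ^ (m + 1) * c ≤ 2 ^ (m + 1) * (c1 * t + B) := Nat.mul_le_mul_left _ (by omega)
      _ = (2 ^ m * c1) * (t + t) + 2 ^ (m + 1) * B := by ring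
      _ ≤ ((d + 1 + m) * A) * B + A * B :=
        Nat.add_le_add (Nat.mul_le_mul h4 h9) (Nat.mul_le_mul_right _ h11)
      _ = (d + 1 + (m + 1)) * (B * A) := by ring

end

end Pool.Agent.H257Z.GS
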