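import Pool.Agent.H257Z.GS.Chain

set_option autoImplicit false

/-! Counting the subgroups of finite index, and counting the words. -/

namespace Pool.Agent.H257Z.GS

open scoped commutatorElement Pointwise

variable {p : ℕ} [Fact p.Prime] {G : Type} [Group G] {d : ℕ} {x : Fin d → G} {Y : ℕ → Finset G}

omit [Fact p.Prime] in
theorem exists_steps (hgen : ∀ e, D p G e ≤ D p G (e + 1) ⊔ Subgroup.closure (Y e : Set G))
    (n : ℕ) : ∀ H : Subgroup G, D p G (n + 1) ≤ H →
      ∃ es, Steps p Y ⊤ H es ∧ es.Pairwise (· ≥ ·) ∧ ∀ e ∈ es, e ≤ n := by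
  classical
  induction n with
  | zero =>
    intro H hH
    have : H = ⊤ := top_le_iff.1 fun g _ => hH (mem_D_one g)
    subst this
    exact ⟨[], Steps.nil, List.Pairwise.nil, by simp⟩
  | succ n ih =>
    have inner : ∀ T : Finset G, T ⊆ Y (n + 1) → ∀ H : Subgroup G, D p G (n + 1 + 1) ≤ H →
        (∃ es, Steps p Y ⊤ (H ⊔ Subgroup.closure (T : Set G)) es ∧ es.Pairwise (· ≥ ·) ∧
          ∀ e ∈ es, e ≤ n + 1) →
        ∃ es, Steps p Y ⊤ H es ∧ es.Pairwise (· ≥ ·) ∧ ∀ e ∈ es, e ≤ n + 1 := by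
      intro T
      induction T using Finset.induction_on with
      | empty => intro _ H _ h; simpa using h
      | insert y T hy ihT =>
        intro hT H hH h
        have hyY : y ∈ Y (n + 1) := hT (Finset.mem_insert_self _ _)
        have e1 : H ⊔ Subgroup.closure ((insert y T : Finset G) : Set G)
            = (H ⊔ Subgroup.zpowers y) ⊔ Subgroup.closure (T : Set G) := by
          rw [Finset.coe_insert, Set.insert_eq, Subgroup.closure_union, sup_assoc,
            Subgroup.zpowers_eq_closure]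
        rw [e1] at h
        obtain ⟨es, h1, h2, h3⟩ := ihT ((Finset.subset_insert _ _).trans hT) _
          (hH.trans le_sup_left) h
        by_cases hyH : y ∈ H
        · rw [sup_eq_left.2 (Subgroup.zpowers_le.2 hyH)] at h1
          exact ⟨es, h1, h2, h3⟩
        · refine ⟨(n + 1) :: es, Steps.cons _ H _ es h1 ⟨by omega, hH, y, hyY, hyH, rfl⟩, ?_, ?_⟩
          · exact List.Pairwise.cons h3 h2
          · intro e he
            rcases List.mem_cons.1 he with rfl | he
            · exact le_rfl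
            · exact h3 e he
    intro H hH
    refine inner (Y (n + 1)) subset_rfl H hH ?_
    obtain ⟨es, h1, h2, h3⟩ := ih (H ⊔ Subgroup.closure (Y (n + 1) : Set G))
      ((hgen (n + 1)).trans (sup_le_sup_right hH _))
    exact ⟨es, h1, h2, fun e he => (h3 e he).trans (Nat.le_succ n)⟩

theorem Step.hom (hY : ∀ e, ∀ y ∈ Y e, y ∈ D p G e) {K H : Subgroup G} {e : ℕ}
    (h : Step p Y K H e) :
    H.relIndex K = p ∧ ∃ φ : K →* Multiplicative (ZMod p), ∀ g : K, φ g = 1 ↔ (g : G) ∈ H := by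
  obtain ⟨he, hD, y, hyY, hyH, hM⟩ := h
  exact exists_hom (conj_mem_of_D hD (hY e y hyY)) (pow_mem_of_D he hD (hY e y hyY)) hyH hM

theorem Steps.index (hY : ∀ e, ∀ y ∈ Y e, y ∈ D p G e) {H : Subgroup G} {es : List ℕ}
    (h : Steps p Y ⊤ H es) : H.index = p ^ es.length := by
  induction h with
  | nil => simp
  | cons M H e es _ h2 ih =>
    rw [← Subgroup.relIndex_mul_index h2.le, ih, (h2.hom hY).1, List.length_cons, pow_succ']

theorem count_step (hY : ∀ e, ∀ y ∈ Y e, y ∈ D p G e) {N K : Subgroup G} {S c : ℕ}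
    (hK : Gen p x Y N K S c) :
    ∃ T : Finset (Subgroup G), T.card ≤ p ^ c ∧ ∀ H e, N ≤ H → Step p Y K H e → H ∈ T := by
  classical
  obtain ⟨ι, _, z, h1, -, h3⟩ := hK
  have hz : ∀ i, z i ∈ K := fun i =>
    h3 ▸ Subgroup.mem_sup_left (Subgroup.subset_closure ⟨i, rfl⟩)
  let A := {H : Subgroup G // N ≤ H ∧ ∃ e, Step p Y K H e}
  have hφ : ∀ H : A, ∃ φ : K →* Multiplicative (ZMod p), ∀ g : K, φ g = 1 ↔ (g : G) ∈ H.1 :=
    fun H => (H.2.2.choose_spec.hom hY).2
  choose φ hφ using hφ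
  let Φ : A → (ι → Multiplicative (ZMod p)) := fun H i => φ H ⟨z i, hz i⟩
  have hinj : Function.Injective Φ := by
    intro H1 H2 h
    have key : K ≤ (MonoidHom.eqLocus (φ H1) (φ H2)).map K.subtype := by
      refine h3.le.trans (sup_le ?_ ?_)
      · rw [Subgroup.closure_le]
        rintro _ ⟨i, rfl⟩
        exact ⟨⟨z i, hz i⟩, congrFun h i, rfl⟩
      · intro g hg
        have hgK : g ∈ K := h3 ▸ Subgroup.mem_sup_right hg
        refine ⟨⟨g, hgK⟩, ?_, rfl⟩
        show φ H1 _ = φ H2 _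
        rw [(hφ H1 _).2 (H1.2.1 hg), (hφ H2 _).2 (H2.2.1 hg)]
    have key2 : ∀ g : K, φ H1 g = φ H2 g := by
      intro g
      obtain ⟨g', hg', he⟩ := key g.2
      have : g' = g := Subtype.ext he
      subst this
      exact hg'
    apply Subtype.ext
    ext g
    constructor
    · intro hg
      have hgK : g ∈ K := H1.2.2.choose_spec.le hg
      exact (hφ H2 ⟨g, hgK⟩).1 (key2 _ ▸ (hφ H1 ⟨g, hgK⟩).2 hg)
    · intro hg
      have hgK : g ∈ K := H2.2.2.choose_spec.le hg
      exact (hφ H1 ⟨g, hgK⟩).1 ((key2 _).symm ▸ (hφ H2 ⟨g, hgK⟩).2 hg)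
  have : Finite A := Finite.of_injective Φ hinj
  let := Fintype.ofFinite A
  refine ⟨Finset.univ.image (fun H : A => H.1), ?_, fun H e hN hs => ?_⟩
  · refine Finset.card_image_le.trans ?_
    rw [Finset.card_univ]
    refine (Fintype.card_le_of_injective Φ hinj).trans ?_
    simp [h1]
  · exact Finset.mem_image.2 ⟨⟨H, hN, e, hs⟩, Finset.mem_univ _, rfl⟩

theorem count_level (hY : ∀ e, ∀ y ∈ Y e, y ∈ D p G e) {N : Subgroup G} (b : ℕ → ℕ)
    (hb : ∀ (H : Subgroup G) (es : List ℕ), Steps p Y ⊤ H es → es.Pairwise (· ≥ ·) → N ≤ H →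
      ∃ c, Gen p x Y N H es.sum c ∧ c ≤ b es.length) (k : ℕ) :
    ∃ A : Finset (Subgroup G), A.card ≤ p ^ (∑ j ∈ Finset.range k, b j) ∧
      ∀ (H : Subgroup G) (es : List ℕ), Steps p Y ⊤ H es → es.Pairwise (· ≥ ·) → N ≤ H →
        es.length = k → H ∈ A := by
  classical
  have hp : 0 < p := (Fact.out : p.Prime).pos
  induction k with
  | zero =>
    refine ⟨{⊤}, by simp, fun H es h _ _ hl => ?_⟩
    rw [List.length_eq_zero_iff] at hl
    subst hl
    cases h
    simp
  | succ k ih =>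
    obtain ⟨A, hA1, hA2⟩ := ih
    have : ∀ K : Subgroup G, ∃ T : Finset (Subgroup G), T.card ≤ p ^ b k ∧
        ∀ es : List ℕ, Steps p Y ⊤ K es → es.Pairwise (· ≥ ·) → N ≤ K → es.length = k →
          ∀ H e, N ≤ H → Step p Y K H e → H ∈ T := by
      intro K
      by_cases hK : ∃ es : List ℕ, Steps p Y ⊤ K es ∧ es.Pairwise (· ≥ ·) ∧ N ≤ K ∧ es.length = k
      · obtain ⟨es, h1, h2, h3, h4⟩ := hK
        obtain ⟨c, h5, h6⟩ := hb K es h1 h2 h3
        obtain ⟨T, h7, h8⟩ := count_step hY h5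
        exact ⟨T, h7.trans (Nat.pow_le_pow_right hp (h4 ▸ h6)), fun _ _ _ _ _ => h8⟩
      · exact ⟨∅, by simp, fun es h1 h2 h3 h4 => (hK ⟨es, h1, h2, h3, h4⟩).elim⟩
    choose T hT1 hT2 using this
    refine ⟨A.biUnion T, ?_, fun H es h hs hN hl => ?_⟩
    · refine (Finset.card_biUnion_le_card_mul _ _ _ fun K _ => hT1 K).trans ?_
      rw [Finset.sum_range_succ, pow_add]
      exact Nat.mul_le_mul_right _ hA1
    · cases h with
      | nil => simp at hl
      | cons M _ e es h1 h2 =>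
        rw [List.pairwise_cons] at hs
        simp only [List.length_cons, add_left_inj] at hl
        have hM : N ≤ M := hN.trans h2.le
        exact Finset.mem_biUnion.2 ⟨M, hA2 M es h1 hs.2 hM hl, hT2 M es h1 hs.2 hM hl H e hN h2⟩

theorem geom_le {p : ℕ} (hp : 2 ≤ p) (k : ℕ) : ∑ j ∈ Finset.range k, p ^ j ≤ p ^ k := by
  induction k with
  | zero => simp
  | succ k ih =>
    rw [Finset.sum_range_succ, pow_succ]
    have := Nat.mul_le_mul_left (p ^ k) hp
    omega

theorem count_fine (hx : Subgroup.closure (Set.range x) = ⊤)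
    (hY : ∀ e, ∀ y ∈ Y e, y ∈ D p G e) {N : Subgroup G} [N.Normal] {s : ℕ} (hs : 4 * s + 1 ≤ p)
    (hR : ∀ S z, 1 ≤ S → InW p x Y z S → z ∈ D p G (s * S) → z ∈ N) (m k : ℕ) :
    ∃ (A : Finset (Subgroup G)) (B : ℕ), A.card ≤ p ^ B ∧
      2 ^ m * B ≤ 2 ^ m * ((d + 1) * p ^ 2 ^ m) + (d + 1 + m) * p ^ k ∧
      ∀ (H : Subgroup G) (es : List ℕ), Steps p Y ⊤ H es → es.Pairwise (· ≥ ·) → N ≤ H →
        es.length = k → H ∈ A := by
  have hp : 2 ≤ p := (Fact.out : p.Prime).two_le
  let b : ℕ → ℕ := fun j =>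
    (if j < 2 ^ m then (d + 1) * p ^ j else 0) + (d + 1 + m) * p ^ j / 2 ^ m
  obtain ⟨A, h1, h2⟩ := count_level (x := x) (N := N) hY b (by
    intro H es h hs' hN
    by_cases hl : es.length < 2 ^ m
    · obtain ⟨c, h3, h4⟩ := gen_crude hx hY hR h hN
      refine ⟨c, h3, h4.trans ?_⟩
      simp only [b, if_pos hl]
      exact Nat.le_add_right _ _
    · obtain ⟨c, h3, h4⟩ := gen_fine hx hY hs hR m H es h hs' hN (not_lt.1 hl)
      refine ⟨c, h3, ?_⟩
      simp only [b, if_neg hl, zero_add]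
      rw [Nat.le_div_iff_mul_le (by positivity), mul_comm]
      exact h4) k
  refine ⟨A, _, h1, ?_, h2⟩
  simp only [b]
  rw [Finset.sum_add_distrib, mul_add]
  refine Nat.add_le_add (Nat.mul_le_mul_left _ ?_) ?_
  · rw [← Finset.sum_filter]
    refine (Finset.sum_le_sum_of_subset (t := Finset.range (2 ^ m)) ?_).trans ?_
    · intro j hj
      exact Finset.mem_range.2 (Finset.mem_filter.1 hj).2
    · rw [← Finset.mul_sum]
      exact Nat.mul_le_mul_left _ (geom_le hp _)
  · rw [Finset.mul_sum]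
    refine (Finset.sum_le_sum fun j _ => Nat.mul_div_le _ _).trans ?_
    rw [← Finset.mul_sum]
    exact Nat.mul_le_mul_left _ (geom_le hp _)

theorem geom_eq (q S : ℕ) : ∑ j ∈ Finset.range S, q * (q + 1) ^ j + 1 = (q + 1) ^ S := by
  induction S with
  | zero => simp
  | succ S ih => rw [Finset.sum_range_succ, pow_succ, ← ih]; ring_nf

omit [Fact p.Prime] in
theorem exists_cover (hd : 1 ≤ d) (hcard : ∀ e, (Y e).card ≤ d ^ e) (S : ℕ) :
    ∃ T : Finset G, T.card ≤ d * (d * (p ^ 2 + 2)) ^ S ∧ ∀ z, InW p x Y z S → z ∈ T := by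
  classical
  induction S using Nat.strong_induction_on with
  | _ S ih =>
    rcases Nat.eq_zero_or_pos S with rfl | hS
    · refine ⟨Finset.univ.image x, Finset.card_image_le.trans (by simp), fun z hz => ?_⟩
      generalize h0 : 0 = S at hz
      cases hz with
      | gen i => simp
      | pow y e S _ _ => omega
      | step z S y e c a _ _ _ _ _ => omega
    choose! T hT1 hT2 using ih
    let U : ℕ → Finset G := fun j =>
      ((T j ×ˢ Y (S - j)) ×ˢ (Finset.range p ×ˢ Finset.range p)).image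
        (fun q => ic (q.1.1 * (q.1.2 ^ q.2.1)⁻¹) q.1.2 q.2.2) ∪ (Y (S - j)).image (· ^ p)
    refine ⟨(Finset.range S).biUnion U, ?_, fun z hz => ?_⟩
    · refine Finset.card_biUnion_le.trans ?_
      have h1 : ∀ j ∈ Finset.range S,
          (U j).card ≤ d * d ^ S * ((p ^ 2 + 1) * (p ^ 2 + 1 + 1) ^ j) := by
        intro j hj
        have hj' := Finset.mem_range.1 hj
        refine (Finset.card_union_le _ _).trans ?_
        refine (Nat.add_le_add Finset.card_image_le Finset.card_image_le).trans ?_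
        simp only [Finset.card_product, Finset.card_range]
        have h2 := hT1 j hj'
        have h3 := hcard (S - j)
        have h4 : d ^ S = d ^ j * d ^ (S - j) := by rw [← pow_add]; congr 1; omega
        have h5 : 1 ≤ d * (d * (p ^ 2 + 2)) ^ j := Nat.mul_pos hd (by positivity)
        calc (T j).card * (Y (S - j)).card * (p * p) + (Y (S - j)).card
            ≤ (d * (d * (p ^ 2 + 2)) ^ j) * d ^ (S - j) * (p * p)
              + (d * (d * (p ^ 2 + 2)) ^ j) * d ^ (S - j) := by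
              refine Nat.add_le_add (Nat.mul_le_mul_right _ (Nat.mul_le_mul h2 h3)) ?_
              exact h3.trans (Nat.le_mul_of_pos_left _ h5)
          _ = d * d ^ S * ((p ^ 2 + 1) * (p ^ 2 + 1 + 1) ^ j) := by
              rw [h4, mul_pow]; ring
      refine (Finset.sum_le_sum h1).trans ?_
      rw [← Finset.mul_sum, mul_pow, ← mul_assoc]
      refine Nat.mul_le_mul_left _ ?_
      have := geom_eq (p ^ 2 + 1) S
      rw [show p ^ 2 + 2 = p ^ 2 + 1 + 1 from rfl]
      omega
    · cases hz with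
      | gen i => omega
      | pow y e S' hy he =>
        refine Finset.mem_biUnion.2 ⟨S', Finset.mem_range.2 (by omega), ?_⟩
        refine Finset.mem_union_right _ (Finset.mem_image.2 ⟨y, ?_, rfl⟩)
        rwa [Nat.add_sub_cancel_left]
      | step z S' y e c a hz hy he hc ha =>
        refine Finset.mem_biUnion.2 ⟨S', Finset.mem_range.2 (by omega), ?_⟩
        refine Finset.mem_union_left _ (Finset.mem_image.2 ⟨((z, y), (c, a)), ?_, rfl⟩)
        simp only [Finset.mem_product, Finset.mem_range, Nat.add_sub_cancel_left]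
        exact ⟨⟨hT2 S' (by omega) z hz, hy⟩, hc, ha⟩

end Pool.Agent.H257Z.GS
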