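import Pool.Agent.H257Z.GS.Aug

set_option autoImplicit false

/-! Generators of the dimension quotients, and nilpotence for finite `p`-groups. -/

namespace Pool.Agent.H257Z.GS

open MonoidAlgebra
open scoped commutatorElement Pointwise

theorem ring_id1 {R : Type} [Ring R] (a b : R) :
    a * b - 1 = (a - 1) + (b - 1) + (a - 1) * (b - 1) := by noncomm_ring

theorem ring_id2 {R : Type} [Ring R] (a b : R) (h : a * b = 1) :
    b - 1 = -(a - 1) - (a - 1) * (b - 1) := by
  rw [sub_mul, mul_sub, h]; noncomm_ring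

variable {p : ℕ} [Fact p.Prime] {G : Type} [Group G]

theorem J_two (g h : G) : (of (ZMod p) G g - 1) * (of (ZMod p) G h - 1) ∈ J p G 2 :=
  J_mul (m := 1) (n := 1) (sub_one_mem_J g) (sub_one_mem_J h)

theorem J_one_le {d : ℕ} (x : Fin d → G) (hx : Subgroup.closure (Set.range x) = ⊤) :
    J p G 1 ≤ Submodule.span (ZMod p) (Set.range fun i : Fin d => of (ZMod p) G (x i) - 1)
      ⊔ J p G 2 := by
  rw [J_succ, zero_add, pow_one, Submodule.span_le]
  rintro _ ⟨g, rfl⟩
  simp only [SetLike.mem_coe]
  have hg : g ∈ Subgroup.closure (Set.range x) := hx ▸ Subgroup.mem_top g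
  induction hg using Subgroup.closure_induction with
  | one => rw [map_one, sub_self]; exact Submodule.zero_mem _
  | mem g hg =>
    obtain ⟨i, rfl⟩ := hg
    exact Submodule.mem_sup_left (Submodule.subset_span ⟨i, rfl⟩)
  | inv g _ ih =>
    have h1 : of (ZMod p) G g * of (ZMod p) G g⁻¹ = 1 := by rw [← map_mul]; simp [one_def]
    have : of (ZMod p) G g⁻¹ - 1 = -(of (ZMod p) G g - 1)
        - (of (ZMod p) G g - 1) * (of (ZMod p) G g⁻¹ - 1) := by
      exact ring_id2 _ _ h1
    rw [this]
    exact Submodule.sub_mem _ (Submodule.neg_mem _ ih)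
      (Submodule.mem_sup_right (J_two _ _))
  | mul g h _ _ ihg ihh =>
    have : of (ZMod p) G (g * h) - 1 = (of (ZMod p) G g - 1) + (of (ZMod p) G h - 1)
        + (of (ZMod p) G g - 1) * (of (ZMod p) G h - 1) := by
      rw [map_mul]; exact ring_id1 _ _
    rw [this]
    exact Submodule.add_mem _ (Submodule.add_mem _ ihg ihh)
      (Submodule.mem_sup_right (J_two _ _))

theorem exists_span {d : ℕ} (x : Fin d → G) (hx : Subgroup.closure (Set.range x) = ⊤) (n : ℕ) :
    ∃ S : Finset (MonoidAlgebra (ZMod p) G), S.card ≤ d ^ n ∧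
      (∀ s ∈ S, s ∈ J p G n) ∧
      J p G n ≤ Submodule.span (ZMod p) S ⊔ J p G (n + 1) := by
  classical
  induction n with
  | zero =>
    refine ⟨{1}, by simp, by simp [J_zero], ?_⟩
    intro a _
    induction a using MonoidAlgebra.induction_on with
    | of g =>
      have : of (ZMod p) G g = 1 + (of (ZMod p) G g - 1) := by abel
      rw [this]
      exact Submodule.add_mem _ (Submodule.mem_sup_left (Submodule.subset_span (by simp)))
        (Submodule.mem_sup_right (sub_one_mem_J _))
    | add a b h1 h2 => exact Submodule.add_mem _ (h1 (by simp [J_zero])) (h2 (by simp [J_zero]))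
    | smul c a h => exact Submodule.smul_mem _ _ (h (by simp [J_zero]))
  | succ n ih =>
    obtain ⟨S, hS1, hS2, hS3⟩ := ih
    let T : Finset (MonoidAlgebra (ZMod p) G) :=
      Finset.univ.image fun i : Fin d => of (ZMod p) G (x i) - 1
    have hT : (T : Set _) = Set.range fun i : Fin d => of (ZMod p) G (x i) - 1 := by simp [T]
    have hT1 : T.card ≤ d := Finset.card_image_le.trans (by simp)
    have hT2 : Submodule.span (ZMod p) (T : Set _) ≤ J p G 1 := by
      rw [hT, Submodule.span_le]
      rintro _ ⟨i, rfl⟩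
      exact sub_one_mem_J _
    have hS2' : Submodule.span (ZMod p) (S : Set _) ≤ J p G n := by
      rw [Submodule.span_le]; exact hS2
    refine ⟨S * T, ?_, ?_, ?_⟩
    · refine Finset.card_mul_le.trans ?_
      rw [pow_succ]
      exact Nat.mul_le_mul hS1 hT1
    · intro s hs
      obtain ⟨a, ha, b, hb, rfl⟩ := Finset.mem_mul.1 hs
      exact J_mul (hS2 a ha) (hT2 (Submodule.subset_span hb))
    · have h1 : J p G (n + 1) ≤ J p G n * J p G 1 := by
        rw [J_succ, J_succ, zero_add, pow_one, pow_succ]
        exact mul_le_mul_left (le_mul_top _) _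
      refine h1.trans ?_
      refine (mul_le_mul' hS3 (J_one_le x hx)).trans ?_
      rw [← hT, Submodule.sup_mul, Submodule.mul_sup, Finset.coe_mul, ← Submodule.span_mul_span]
      refine sup_le (sup_le le_sup_left (le_sup_of_le_right ?_)) (le_sup_of_le_right ?_)
      · exact (mul_le_mul_left hS2' _).trans (J_mul_J _ _)
      · refine (mul_le_mul_right (sup_le hT2 (J_succ_le 1)) _).trans (J_mul_J _ _)

/-- In a space spanned by `m` vectors, every set has at most `m` members that span it. -/
theorem exists_small_spanning {k V : Type} [Field k] [AddCommGroup V] [Module k V]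
    (S : Finset V) (U : Set V) (hU : U ⊆ Submodule.span k (S : Set V)) :
    ∃ B : Finset V, B.card ≤ S.card ∧ (B : Set V) ⊆ U ∧ U ⊆ Submodule.span k (B : Set V) := by
  obtain ⟨b, hb1, hb2, hb3⟩ := exists_linearIndependent k U
  have hr : Set.range ((↑) : b → V) ≤ Submodule.span k (S : Set V) := by
    rw [Subtype.range_coe]; exact hb1.trans hU
  have hfin : Finite b := hb3.finite_of_le_span_finite _ (S : Set V) hr
  have hb : b.Finite := Set.toFinite b
  refine ⟨hb.toFinset, ?_, by simpa using hb1, ?_⟩
  · let := Fintype.ofFinite b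
    have := linearIndependent_le_span_aux' _ hb3 (S : Set V) hr
    simp only [Finset.coe_sort_coe, Fintype.card_coe] at this
    rw [Set.Finite.card_toFinset]
    exact this
  · rw [Set.Finite.coe_toFinset, hb2]
    exact Submodule.subset_span

theorem exists_Y {d : ℕ} (x : Fin d → G) (hx : Subgroup.closure (Set.range x) = ⊤) (n : ℕ) :
    ∃ Y : Finset G, Y.card ≤ d ^ n ∧ (∀ y ∈ Y, y ∈ D p G n) ∧
      D p G n ≤ D p G (n + 1) ⊔ Subgroup.closure (Y : Set G) := by
  classical
  obtain ⟨S, hS1, hS2, hS3⟩ := exists_span (p := p) x hx n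
  let q := (J p G (n + 1)).mkQ
  let f : G → _ := fun g => q (of (ZMod p) G g - 1)
  have hmul : ∀ g ∈ D p G n, ∀ h ∈ D p G n, f (g * h) = f g + f h := by
    intro g hg h _
    have : of (ZMod p) G (g * h) - 1 = (of (ZMod p) G g - 1) + (of (ZMod p) G h - 1)
        + (of (ZMod p) G g - 1) * (of (ZMod p) G h - 1) := by
      rw [map_mul]; exact ring_id1 _ _
    have h0 : q ((of (ZMod p) G g - 1) * (of (ZMod p) G h - 1)) = 0 :=
      (Submodule.Quotient.mk_eq_zero _).2 (J_mul hg (sub_one_mem_J _))
    simp only [f]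
    rw [this, map_add, map_add, h0, add_zero]
  have hone : f 1 = 0 := by simp only [f]; rw [map_one, sub_self, map_zero]
  have hU : f '' (D p G n) ⊆ (Submodule.span (ZMod p)
      ((S.image q : Finset (MonoidAlgebra (ZMod p) G ⧸ J p G (n + 1))) :
        Set (MonoidAlgebra (ZMod p) G ⧸ J p G (n + 1))) :
        Set (MonoidAlgebra (ZMod p) G ⧸ J p G (n + 1))) := by
    rintro _ ⟨g, hg, rfl⟩
    obtain ⟨a, ha, b, hb, hab⟩ := Submodule.mem_sup.1 (hS3 hg)
    have h0 : q b = 0 := (Submodule.Quotient.mk_eq_zero _).2 hb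
    simp only [f]
    rw [← hab, map_add, h0, add_zero, Finset.coe_image, Submodule.span_image]
    exact Submodule.mem_map_of_mem ha
  obtain ⟨B, hB1, hB2, hB3⟩ := exists_small_spanning _ _ hU
  have hch : ∀ b : B, ∃ g, g ∈ D p G n ∧ f g = b := fun b => hB2 b.2
  choose y hy1 hy2 using hch
  refine ⟨Finset.univ.image y, ?_, ?_, ?_⟩
  · refine Finset.card_image_le.trans ?_
    simp only [Finset.card_univ, Fintype.card_coe]
    exact hB1.trans (Finset.card_image_le.trans hS1)
  · intro g hg
    obtain ⟨b, _, rfl⟩ := Finset.mem_image.1 hg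
    exact hy1 b
  · set C := Subgroup.closure ((Finset.univ.image y : Finset G) : Set G) with hC
    have hCD : C ≤ D p G n := by
      rw [hC, Subgroup.closure_le]
      intro g hg
      obtain ⟨b, _, rfl⟩ := Finset.mem_image.1 hg
      exact hy1 b
    have key : ∀ v ∈ Submodule.span (ZMod p) (B : Set _), ∃ c ∈ C, f c = v := by
      intro v hv
      induction hv using Submodule.span_induction with
      | mem v hv =>
        exact ⟨y ⟨v, hv⟩, Subgroup.subset_closure (by simp), hy2 _⟩
      | zero => exact ⟨1, C.one_mem, hone⟩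
      | add u v _ _ h1 h2 =>
        obtain ⟨c, hc, rfl⟩ := h1
        obtain ⟨e, he, rfl⟩ := h2
        exact ⟨c * e, C.mul_mem hc he, hmul _ (hCD hc) _ (hCD he)⟩
      | smul a v _ h =>
        obtain ⟨c, hc, rfl⟩ := h
        obtain ⟨m, rfl⟩ := ZMod.natCast_zmod_surjective a
        refine ⟨c ^ m, C.pow_mem hc m, ?_⟩
        rw [Nat.cast_smul_eq_nsmul]
        induction m with
        | zero => simpa using hone
        | succ m ih =>
          rw [pow_succ, hmul _ (hCD (C.pow_mem hc m)) _ (hCD hc), ih, succ_nsmul]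
    intro g hg
    obtain ⟨c, hc, hcg⟩ := key _ (hB3 ⟨g, hg, rfl⟩)
    have h1 : f (g * c⁻¹) = 0 := by
      have := hmul (g * c⁻¹) ((D p G n).mul_mem hg ((D p G n).inv_mem (hCD hc))) c (hCD hc)
      rw [inv_mul_cancel_right, hcg] at this
      exact add_eq_right.1 this.symm
    have h2 : g * c⁻¹ ∈ D p G (n + 1) := (Submodule.Quotient.mk_eq_zero _).1 h1
    have : g = g * c⁻¹ * c := by group
    rw [this]
    exact Subgroup.mul_mem_sup h2 hc

theorem exists_J_eq_bot [Finite G] (hG : IsPGroup p G) : ∃ n, J p G n = ⊥ := by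
  let B := MonoidAlgebra (ZMod p) G
  have : Finite (G →₀ ZMod p) := Finite.of_injective _ DFunLike.coe_injective
  have : Finite B := Finite.of_injective _ MonoidAlgebra.coeff_injective
  let W : ℕ → Submodule B B := fun n =>
    { carrier := {v | ∀ a ∈ J p G n, a * v = 0}
      add_mem' := by
        intro u v hu hv a ha
        rw [mul_add, hu a ha, hv a ha, add_zero]
      zero_mem' := by intro a _; rw [mul_zero]
      smul_mem' := by
        intro b v hv a ha
        rw [smul_eq_mul, ← mul_assoc]
        exact hv _ (J_mul_right ha b) }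
  have hmono : Monotone W := by
    intro m n h v hv a ha
    exact hv a (J_anti h ha)
  obtain ⟨n, hn⟩ := WellFoundedGT.monotone_chain_condition ⟨W, hmono⟩
  have hn1 : W n = W (n + 1) := hn (n + 1) (Nat.le_succ n)
  have htop : W n = ⊤ := by
    by_contra hne
    let M := B ⧸ W n
    have : Nontrivial M := Submodule.Quotient.nontrivial_iff.2 hne
    have : Finite M := Finite.of_surjective _ (W n).mkQ_surjective
    let : MulAction G M := MulAction.compHom M (of (ZMod p) G)
    have hp : p ∣ Nat.card M := by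
      obtain ⟨m, hm⟩ := exists_ne (0 : M)
      have h1 : p • m = 0 := by
        obtain ⟨b, rfl⟩ := (W n).mkQ_surjective m
        rw [← map_nsmul, nsmul_eq_mul, CharP.cast_eq_zero, zero_mul, map_zero]
      have h2 : addOrderOf m = p := addOrderOf_eq_prime h1 hm
      rw [← h2]
      exact addOrderOf_dvd_natCard m
    have h0 : (0 : M) ∈ MulAction.fixedPoints G M := by
      intro g
      show of (ZMod p) G g • (0 : M) = 0
      exact smul_zero _
    obtain ⟨m, hm1, hm2⟩ := hG.exists_fixed_point_of_prime_dvd_card_of_fixed_point M hp h0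
    obtain ⟨v, rfl⟩ := (W n).mkQ_surjective m
    have h3 : ∀ g : G, (of (ZMod p) G g - 1) * v ∈ W n := by
      intro g
      have : of (ZMod p) G g • (W n).mkQ v = (W n).mkQ v := hm1 g
      rw [← map_smul, ← sub_eq_zero, ← map_sub] at this
      rw [sub_mul, one_mul]
      exact (Submodule.Quotient.mk_eq_zero _).1 this
    have h4 : ∀ b ∈ aug p G, b * v ∈ W n := by
      intro b hb
      induction hb using Submodule.span_induction with
      | mem b hb => obtain ⟨g, rfl⟩ := hb; exact h3 g
      | zero => rw [zero_mul]; exact Submodule.zero_mem _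
      | add a b _ _ h1 h2 => rw [add_mul]; exact Submodule.add_mem _ h1 h2
      | smul c b _ h =>
        rw [Algebra.smul_def, mul_assoc]
        exact Submodule.smul_mem (W n) _ h
    have h5 : v ∈ W (n + 1) := by
      intro a ha
      rw [J_succ, pow_succ] at ha
      refine Submodule.mul_induction_on ha ?_ ?_
      · intro a ha b hb
        rw [mul_assoc]
        exact h4 b hb a (le_mul_top _ ha)
      · intro a b h1 h2
        rw [add_mul, h1, h2, add_zero]
    rw [← hn1] at h5
    exact hm2 ((Submodule.Quotient.mk_eq_zero _).2 h5).symm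
  refine ⟨n, eq_bot_iff.2 fun a ha => ?_⟩
  have : (1 : B) ∈ W n := htop ▸ Submodule.mem_top
  simpa using this a ha

theorem exists_D_le_ker {Q : Type} [Group Q] [Finite Q] (hQ : IsPGroup p Q) (π : G →* Q) :
    ∃ n, D p G n ≤ π.ker := by
  obtain ⟨n, hn⟩ := exists_J_eq_bot hQ
  refine ⟨n + 1, fun g hg => ?_⟩
  let ψ := MonoidAlgebra.mapDomainAlgHom (ZMod p) (ZMod p) π
  have hψ : ∀ g, ψ (of (ZMod p) G g) = of (ZMod p) Q (π g) := by
    intro g; simp [ψ]
  have h1 : (aug p G).map ψ.toLinearMap ≤ aug p Q := by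
    rw [Submodule.map_span_le]
    rintro _ ⟨g, rfl⟩
    simp only [AlgHom.toLinearMap_apply, map_sub, map_one, hψ]
    exact sub_one_mem_aug _
  rw [mem_D, J_succ] at hg
  have h2 : ψ (of (ZMod p) G g - 1) ∈ aug p Q ^ (n + 1) := by
    have := Submodule.mem_map_of_mem (f := ψ.toLinearMap) hg
    rw [Submodule.map_pow] at this
    exact pow_le_pow_left' h1 _ this
  rw [← J_succ] at h2
  have h3 := J_succ_le n h2
  rw [hn, Submodule.mem_bot, map_sub, map_one, hψ, sub_eq_zero, ← map_one (of (ZMod p) Q)] at h3
  exact of_injective h3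

end Pool.Agent.H257Z.GS
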