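import Pool.Agent.H257Z.GS.Count

set_option autoImplicit false

/-! The relations, their weights, and the subgroup count. -/

namespace Pool.Agent.H257Z.GS

theorem sum_weights {G : Type} (T : ℕ → Finset G) (l : ℕ → ℕ) (R : Set G) (P : G → ℕ → Prop)
    (hR : ∀ r ∈ R, ∃ j, r ∈ T j ∧ P r (l j)) (t : ℝ) (ht : 0 ≤ t) (δ : ℝ)
    (hδ : ∀ n, ∑ j ∈ Finset.range n, ((T j).card : ℝ) * t ^ l j ≤ δ) :
    ∃ deg : G → ℕ, (∀ r ∈ R, P r (deg r)) ∧ Summable (fun r : R => t ^ deg r) ∧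
      ∑' r : R, t ^ deg r ≤ δ := by
  classical
  choose! j hj1 hj2 using hR
  have key : ∀ u : Finset R, ∑ r ∈ u, t ^ l (j r) ≤ δ := by
    intro u
    obtain ⟨n, hn⟩ : ∃ n, ∀ r ∈ u, j r ∈ Finset.range n :=
      ⟨u.sup (fun r => j r) + 1, fun r hr =>
        Finset.mem_range.2 (Nat.lt_succ_of_le (Finset.le_sup (f := fun r : R => j r) hr))⟩
    rw [← Finset.sum_fiberwise_of_maps_to (g := fun r : R => j r) hn]
    refine le_trans (Finset.sum_le_sum fun i _ => ?_) (hδ n)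
    have h1 : ∑ r ∈ u.filter (fun r : R => j r = i), t ^ l (j r)
        = ∑ r ∈ u.filter (fun r : R => j r = i), t ^ l i :=
      Finset.sum_congr rfl fun r hr => by rw [(Finset.mem_filter.1 hr).2]
    rw [h1, Finset.sum_const, nsmul_eq_mul]
    refine mul_le_mul_of_nonneg_right ?_ (pow_nonneg ht _)
    rw [Nat.cast_le]
    refine Finset.card_le_card_of_injOn (fun r : R => (r : G)) ?_ Subtype.val_injective.injOn
    intro r hr
    have := hj1 r r.2
    rw [(Finset.mem_filter.1 hr).2] at this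
    exact this
  have hs : Summable (fun r : R => t ^ l (j r)) :=
    summable_of_sum_le (fun _ => pow_nonneg ht _) key
  exact ⟨fun r => l (j r), hj2, hs, hs.tsum_le_of_sum_le key⟩

theorem weights_le (n : ℕ) :
    ∑ j ∈ Finset.range n, ((4 * (4 * (101 ^ 2 + 2)) ^ (j + 1) + 1 : ℕ) : ℝ)
      * (1 / 2) ^ (20 * (j + 1)) ≤ 1 / 2 := by
  have h1 : ∀ j : ℕ, ((4 * (4 * (101 ^ 2 + 2)) ^ (j + 1) + 1 : ℕ) : ℝ)
      * (1 / 2) ^ (20 * (j + 1)) ≤ 1 / 4 * (1 / 2) ^ j := by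
    intro j
    push_cast
    rw [pow_mul]
    have h2 : (1 : ℝ) ≤ 40812 ^ (j + 1) := one_le_pow₀ (by norm_num)
    have h3 : (40812 * (1 / 2) ^ 20 : ℝ) ^ j ≤ (1 / 2) ^ j :=
      pow_le_pow_left₀ (by positivity) (by norm_num) j
    calc (4 * (40812 : ℝ) ^ (j + 1) + 1) * ((1 / 2) ^ 20) ^ (j + 1)
        ≤ (5 * (40812 : ℝ) ^ (j + 1)) * ((1 / 2) ^ 20) ^ (j + 1) :=
          mul_le_mul_of_nonneg_right (by linarith) (by positivity)
      _ = 5 * (40812 * (1 / 2) ^ 20) * (40812 * (1 / 2) ^ 20 : ℝ) ^ j := by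
          rw [mul_assoc, ← mul_pow, pow_succ']; ring
      _ ≤ 1 / 4 * (1 / 2) ^ j :=
          mul_le_mul (by norm_num) h3 (by positivity) (by norm_num)
  refine (Finset.sum_le_sum fun j _ => h1 j).trans ?_
  rw [← Finset.mul_sum]
  have := sum_geometric_two_le n
  linarith

theorem analysis (p d : ℕ) (hp : 2 ≤ p) (ε : ℝ) (hε : 0 < ε) :
    ∃ m N : ℕ, ∀ n, N ≤ n → ∀ B : ℕ,
      2 ^ m * B ≤ 2 ^ m * ((d + 1) * p ^ 2 ^ m) + (d + 1 + m) * n →
      ((n : ℝ) + 1) * (p : ℝ) ^ B ≤ Real.exp (ε * n) := by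
  have hp' : (1 : ℝ) < p := by exact_mod_cast hp
  have hL : 0 < Real.log p := Real.log_pos hp'
  set L := Real.log p with hLdef
  obtain ⟨m, hm⟩ : ∃ m : ℕ, ((d : ℝ) + 1 + m) * L ≤ ε / 3 * 2 ^ m := by
    have h1 : Filter.Tendsto (fun m : ℕ => (((d : ℝ) + 1) * (1 / 2) ^ m + m * (1 / 2) ^ m) * L)
        Filter.atTop (nhds ((((d : ℝ) + 1) * 0 + 0) * L)) :=
      (((tendsto_pow_atTop_nhds_zero_of_lt_one (by norm_num) (by norm_num)).const_mul _).add
        (tendsto_self_mul_const_pow_of_lt_one (by norm_num) (by norm_num))).mul_const _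
    simp only [mul_zero, add_zero, zero_mul] at h1
    obtain ⟨m, hm⟩ := (h1.eventually (gt_mem_nhds (show (0 : ℝ) < ε / 3 by positivity))).exists
    refine ⟨m, ?_⟩
    have h2 : (0 : ℝ) < 2 ^ m := by positivity
    have h3 : (((d : ℝ) + 1) * (1 / 2) ^ m + m * (1 / 2) ^ m) * L * 2 ^ m
        = ((d : ℝ) + 1 + m) * L := by
      rw [one_div, inv_pow]; field_simp
    rw [← h3]
    exact mul_le_mul_of_nonneg_right hm.le h2.le
  set C : ℝ := ((d : ℝ) + 1) * (p : ℝ) ^ 2 ^ m with hC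
  obtain ⟨N, hN⟩ := exists_nat_ge (max (3 * C * L / ε) (18 / ε ^ 2))
  refine ⟨m, N, fun n hn B hB => ?_⟩
  have hn' : (N : ℝ) ≤ n := by exact_mod_cast hn
  have hn0 : (0 : ℝ) ≤ n := Nat.cast_nonneg n
  have h1 : 3 * C * L ≤ n * ε := (div_le_iff₀ hε).1 ((le_max_left _ _).trans (hN.trans hn'))
  have h2 : 18 ≤ n * ε ^ 2 :=
    (div_le_iff₀ (by positivity)).1 ((le_max_right _ _).trans (hN.trans hn'))
  have h3 : (2 : ℝ) ^ m * B ≤ 2 ^ m * C + ((d : ℝ) + 1 + m) * n := by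
    rw [hC]; exact_mod_cast hB
  have h4 : (B : ℝ) * L ≤ 2 * (ε * n / 3) := by
    have h5 : (0 : ℝ) < 2 ^ m := by positivity
    have h6 : (2 : ℝ) ^ m * (B * L) ≤ 2 ^ m * (2 * (ε * n / 3)) := by
      have h7 := mul_le_mul_of_nonneg_right h3 hL.le
      have h8 := mul_le_mul_of_nonneg_right hm hn0
      have h9 := mul_le_mul_of_nonneg_left h1 h5.le
      nlinarith
    exact le_of_mul_le_mul_left h6 h5
  have h5 : (n : ℝ) + 1 ≤ Real.exp (ε * n / 3) := by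
    have := Real.quadratic_le_exp_of_nonneg (show 0 ≤ ε * n / 3 by positivity)
    have h6 : 0 ≤ ε * n / 3 := by positivity
    have h7 := mul_le_mul_of_nonneg_left h2 hn0
    nlinarith
  have h6 : (p : ℝ) ^ B = Real.exp (B * L) := by
    rw [Real.exp_nat_mul, hLdef, Real.exp_log (by linarith)]
  rw [h6]
  calc ((n : ℝ) + 1) * Real.exp (B * L)
      ≤ Real.exp (ε * n / 3) * Real.exp (2 * (ε * n / 3)) :=
        mul_le_mul h5 (Real.exp_le_exp.2 h4) (Real.exp_pos _).le (Real.exp_pos _).le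
    _ = Real.exp (ε * n) := by rw [← Real.exp_add]; congr 1; ring

theorem growth {p : ℕ} [Fact p.Prime] {G : Type} [Group G] {d : ℕ} {x : Fin d → G}
    {Y : ℕ → Finset G} (hx : Subgroup.closure (Set.range x) = ⊤)
    (hY : ∀ e, ∀ y ∈ Y e, y ∈ D p G e)
    (hgen : ∀ e, D p G e ≤ D p G (e + 1) ⊔ Subgroup.closure (Y e : Set G))
    {N : Subgroup G} [N.Normal] {s : ℕ} (hs : 4 * s + 1 ≤ p)
    (hR : ∀ S z, 1 ≤ S → InW p x Y z S → z ∈ D p G (s * S) → z ∈ N)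
    (htor : ∀ g : G, ∃ k, g ^ p ^ k ∈ N) (ε : ℝ) (hε : 0 < ε) :
    ∃ N0 : ℕ, ∀ n : ℕ, N0 ≤ n →
      ((Set.ncard {H : Subgroup (G ⧸ N) | H.index ≠ 0 ∧ H.index ≤ n} : ℕ) : ℝ)
        ≤ Real.exp (ε * (n : ℝ)) := by
  classical
  have hp : 2 ≤ p := (Fact.out : p.Prime).two_le
  obtain ⟨m, N0, hm⟩ := analysis p d hp ε hε
  refine ⟨N0, fun n hn => ?_⟩
  choose A B hA1 hA2 hA3 using count_fine hx hY hs hR m
  let I : Finset ℕ := (Finset.range (n + 1)).filter fun k => p ^ k ≤ n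
  let B0 := I.sup B
  have hB0 : 2 ^ m * B0 ≤ 2 ^ m * ((d + 1) * p ^ 2 ^ m) + (d + 1 + m) * n := by
    rcases I.eq_empty_or_nonempty with h | h
    · simp [B0, h]
    · obtain ⟨k, hk, he⟩ := Finset.exists_mem_eq_sup I h B
      simp only [B0]
      rw [he]
      exact (hA2 k).trans (Nat.add_le_add_left
        (Nat.mul_le_mul_left _ (Finset.mem_filter.1 hk).2) _)
  refine le_trans ?_ (hm n hn B0 hB0)
  have h1 : (I.biUnion A).card ≤ (n + 1) * p ^ B0 := by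
    refine (Finset.card_biUnion_le_card_mul _ _ (p ^ B0) fun k hk => ?_).trans ?_
    · exact (hA1 k).trans (Nat.pow_le_pow_right (by omega) (Finset.le_sup hk))
    · exact Nat.mul_le_mul_right _ ((Finset.card_filter_le _ _).trans (by simp))
  have h2 : Set.ncard {H : Subgroup (G ⧸ N) | H.index ≠ 0 ∧ H.index ≤ n}
      ≤ (I.biUnion A).card := by
    rw [← Set.ncard_coe_finset]
    refine Set.ncard_le_ncard_of_injOn (fun H => H.comap (QuotientGroup.mk' N)) ?_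
      (Subgroup.comap_injective (QuotientGroup.mk'_surjective N)).injOn (Finset.finite_toSet _)
    rintro H ⟨hH1, hH2⟩
    set K := H.comap (QuotientGroup.mk' N) with hK
    have hi : K.index = H.index :=
      Subgroup.index_comap_of_surjective H (QuotientGroup.mk'_surjective N)
    have hNK : N ≤ K := by
      intro g hg
      rw [hK, Subgroup.mem_comap, QuotientGroup.mk'_apply, (QuotientGroup.eq_one_iff g).2 hg]
      exact H.one_mem
    have : K.FiniteIndex := ⟨hi ▸ hH1⟩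
    have hNC : N ≤ K.normalCore := Subgroup.normal_le_normalCore.2 hNK
    have hQ : IsPGroup p (G ⧸ K.normalCore) := by
      intro q
      obtain ⟨g, rfl⟩ := QuotientGroup.mk_surjective q
      obtain ⟨k, hk⟩ := htor g
      exact ⟨k, by rw [← QuotientGroup.mk_pow, QuotientGroup.eq_one_iff]; exact hNC hk⟩
    obtain ⟨e, he⟩ := exists_D_le_ker hQ (QuotientGroup.mk' K.normalCore)
    rw [QuotientGroup.ker_mk'] at he
    obtain ⟨es, h3, h4, -⟩ := exists_steps hgen e K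
      ((D_anti (Nat.le_succ e)).trans (he.trans K.normalCore_le))
    have h5 := h3.index hY
    have h6 : p ^ es.length ≤ n := by rw [← h5, hi]; exact hH2
    have h7 : es.length < p ^ es.length := Nat.lt_pow_self (by omega)
    refine Finset.mem_coe.2 (Finset.mem_biUnion.2 ⟨es.length, ?_, hA3 _ K es h3 h4 hNK rfl⟩)
    exact Finset.mem_filter.2 ⟨Finset.mem_range.2 (by omega), h6⟩
  exact_mod_cast h2.trans h1

theorem main_aux (p : ℕ) [Fact p.Prime] (s : ℕ) (hs : 4 * s + 1 ≤ p) (hs1 : 1 ≤ s)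
    (hw : ∀ n, ∑ j ∈ Finset.range n, ((4 * (4 * (p ^ 2 + 2)) ^ (j + 1) + 1 : ℕ) : ℝ)
      * (1 / 2) ^ (s * (j + 1)) ≤ 1 / 2) :
  ∃ (R : Set (FreeGroup (Fin 4))) (deg : FreeGroup (Fin 4) → ℕ),
    (∀ r ∈ R, MonoidAlgebra.of (ZMod p) (FreeGroup (Fin 4)) r - 1 ∈
        (Submodule.span (ZMod p) (Set.range fun g : FreeGroup (Fin 4) =>
          MonoidAlgebra.of (ZMod p) (FreeGroup (Fin 4)) g - 1)) ^ (deg r)) ∧
    Summable (fun r : R => (1 / 2 : ℝ) ^ deg (r : FreeGroup (Fin 4))) ∧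
    ∑' r : R, (1 / 2 : ℝ) ^ deg (r : FreeGroup (Fin 4)) ≤ 1 / 2 ∧
    ∀ ε : ℝ, 0 < ε → ∃ N : ℕ, ∀ n : ℕ, N ≤ n →
      ((Set.ncard {H : Subgroup (FreeGroup (Fin 4) ⧸ Subgroup.normalClosure R) |
          H.index ≠ 0 ∧ H.index ≤ n} : ℕ) : ℝ) ≤ Real.exp (ε * (n : ℝ)) := by
  classical
  have hp : p.Prime := Fact.out
  let F := FreeGroup (Fin 4)
  have hx : Subgroup.closure (Set.range (FreeGroup.of : Fin 4 → F)) = ⊤ :=
    FreeGroup.closure_range_of _
  choose Y hY1 hY2 hY3 using exists_Y (p := p) _ hx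
  choose W hW1 hW2 using exists_cover (p := p) (x := (FreeGroup.of : Fin 4 → F)) (Y := Y)
    (by norm_num) hY1
  have : Countable F := inferInstanceAs (Countable (Quot _))
  obtain ⟨enc, henc⟩ := exists_surjective_nat F
  let T : ℕ → Finset F := fun j => insert (enc j ^ p ^ (s * (j + 1))) (W (j + 1))
  let R : Set F := {r | ∃ j, r ∈ T j ∧ r ∈ D p F (s * (j + 1))}
  obtain ⟨deg, h1, h2, h3⟩ := sum_weights T (fun j => s * (j + 1)) R
    (fun r n => 1 ≤ n ∧ r ∈ D p F n)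
    (fun r ⟨j, h1, h2⟩ => ⟨j, h1, Nat.mul_pos hs1 (Nat.succ_pos j), h2⟩) (1 / 2) (by norm_num)
    (1 / 2) (by
      intro n
      refine le_trans (Finset.sum_le_sum fun j _ => ?_) (hw n)
      refine mul_le_mul_of_nonneg_right ?_ (by positivity)
      rw [Nat.cast_le]
      exact (Finset.card_insert_le _ _).trans (Nat.add_le_add_right (hW1 _) 1))
  refine ⟨R, deg, ?_, h2, h3, ?_⟩
  · intro r hr
    obtain ⟨h4, h5⟩ := h1 r hr
    obtain ⟨k, hk⟩ : ∃ k, deg r = k + 1 := ⟨deg r - 1, by omega⟩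
    rw [hk] at h5 ⊢
    rw [mem_D, J_succ] at h5
    exact h5
  · refine growth (s := s) hx hY2 hY3 hs ?_ ?_
    · intro S z hS hz hD
      obtain ⟨j, rfl⟩ : ∃ j, S = j + 1 := ⟨S - 1, by omega⟩
      exact Subgroup.subset_normalClosure ⟨j, Finset.mem_insert_of_mem (hW2 _ z hz), hD⟩
    · intro g
      obtain ⟨j, rfl⟩ := henc g
      refine ⟨s * (j + 1), Subgroup.subset_normalClosure ⟨j, Finset.mem_insert_self _ _, ?_⟩⟩
      have := pow_mem_D (p := p) (mem_D_one (enc j)) (s * (j + 1))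
      rw [mul_one] at this
      exact D_anti (Nat.lt_pow_self hp.one_lt).le this

theorem main :
  ∃ (p : ℕ) (d : ℕ) (R : Set (FreeGroup (Fin d))) (deg : FreeGroup (Fin d) → ℕ) (t : ℝ),
    p.Prime ∧ 0 < t ∧ t < 1 ∧
    (∀ r ∈ R, MonoidAlgebra.of (ZMod p) (FreeGroup (Fin d)) r - 1 ∈
        (Submodule.span (ZMod p) (Set.range fun g : FreeGroup (Fin d) =>
          MonoidAlgebra.of (ZMod p) (FreeGroup (Fin d)) g - 1)) ^ (deg r)) ∧
    Summable (fun r : R => t ^ deg (r : FreeGroup (Fin d))) ∧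
    1 - (d : ℝ) * t + ∑' r : R, t ^ deg (r : FreeGroup (Fin d)) < 0 ∧
    ∀ ε : ℝ, 0 < ε → ∃ N : ℕ, ∀ n : ℕ, N ≤ n →
      ((Set.ncard {H : Subgroup (FreeGroup (Fin d) ⧸ Subgroup.normalClosure R) |
          H.index ≠ 0 ∧ H.index ≤ n} : ℕ) : ℝ) ≤ Real.exp (ε * (n : ℝ)) := by
  have hp : Nat.Prime 101 := by norm_num
  have : Fact (Nat.Prime 101) := ⟨hp⟩
  obtain ⟨R, deg, h1, h2, h3, h4⟩ := main_aux 101 20 (by norm_num) (by norm_num) weights_le
  refine ⟨101, 4, R, deg, 1 / 2, hp, by norm_num, by norm_num, h1, h2, ?_, h4⟩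
  push_cast
  linarith

end Pool.Agent.H257Z.GS
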