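import Pool.Agent.H257Z.GS.Gen

set_option autoImplicit false

/-! One step of index `p`: Schreier generators written as iterated commutators. -/

namespace Pool.Agent.H257Z.GS

open scoped commutatorElement Pointwise

variable {G : Type} [Group G]

/-- Iterated commutator `[y, [y, ... [y, z]]]`. -/
def ic (z y : G) : ℕ → G
  | 0 => z
  | a + 1 => ⁅y, ic z y a⁆

theorem conj_ic {p : ℕ} {U : Subgroup G} {w y : G} (h : ∀ j < p, ic w y j ∈ U) (a : ℕ) :
    ∀ b, a + b < p → y ^ a * ic w y b * (y ^ a)⁻¹ ∈ U := by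
  induction a with
  | zero => intro b hb; simpa using h b (by omega)
  | succ a ih =>
    intro b hb
    have : y ^ (a + 1) * ic w y b * (y ^ (a + 1))⁻¹
        = (y ^ a * ic w y (b + 1) * (y ^ a)⁻¹) * (y ^ a * ic w y b * (y ^ a)⁻¹) := by
      rw [ic, commutatorElement_def, pow_succ]; group
    rw [this]
    exact U.mul_mem (ih _ (by omega)) (ih _ (by omega))

theorem ic_mem {H : Subgroup G} {w y : G} (hy : ∀ h ∈ H, y * h * y⁻¹ ∈ H) (hw : w ∈ H) (a : ℕ) :
    ic w y a ∈ H := by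
  induction a with
  | zero => exact hw
  | succ a ih =>
    rw [ic, commutatorElement_def]
    exact H.mul_mem (hy _ ih) (H.inv_mem ih)

theorem conj_pow_mem {H : Subgroup G} {y : G} (hy : ∀ h ∈ H, y * h * y⁻¹ ∈ H) (a : ℕ) :
    ∀ h ∈ H, y ^ a * h * (y ^ a)⁻¹ ∈ H := by
  induction a with
  | zero => intro h hh; simpa using hh
  | succ a ih =>
    intro h hh
    have : y ^ (a + 1) * h * (y ^ (a + 1))⁻¹ = y ^ a * (y * h * y⁻¹) * (y ^ a)⁻¹ := by
      rw [pow_succ]; group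
    rw [this]
    exact ih _ (hy h hh)

theorem mem_normalizer_of {p : ℕ} (hp : 0 < p) {H : Subgroup G} {y : G}
    (hy : ∀ h ∈ H, y * h * y⁻¹ ∈ H) (hyp : y ^ p ∈ H) : y ∈ Subgroup.normalizer (H : Set G) := by
  rw [Subgroup.mem_normalizer_iff]
  intro h
  refine ⟨hy h, fun hh => ?_⟩
  obtain ⟨q, rfl⟩ : ∃ q, p = q + 1 := ⟨p - 1, by omega⟩
  have h1 := conj_pow_mem hy q _ hh
  have : h = (y ^ (q + 1))⁻¹ * (y ^ q * (y * h * y⁻¹) * (y ^ q)⁻¹) * y ^ (q + 1) := by
    rw [pow_succ]; group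
  rw [this]
  exact H.mul_mem (H.mul_mem (H.inv_mem hyp) h1) hyp

theorem exists_coset {p : ℕ} (hp : 0 < p) {H : Subgroup G} {y : G}
    (hy : ∀ h ∈ H, y * h * y⁻¹ ∈ H) (hyp : y ^ p ∈ H) {z : G}
    (hz : z ∈ H ⊔ Subgroup.zpowers y) : ∃ c < p, z * (y ^ c)⁻¹ ∈ H := by
  have hle : Subgroup.zpowers y ≤ Subgroup.normalizer (H : Set G) := by
    rw [Subgroup.zpowers_le]; exact mem_normalizer_of hp hy hyp
  have h1 : z ∈ ((H ⊔ Subgroup.zpowers y : Subgroup G) : Set G) := hz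
  rw [Subgroup.coe_mul_of_right_le_normalizer_left H _ hle] at h1
  obtain ⟨h, hh, _, ⟨m, rfl⟩, rfl⟩ := h1
  have hp' : (0 : ℤ) < p := by exact_mod_cast hp
  have h2 : 0 ≤ m % p := Int.emod_nonneg _ hp'.ne'
  have h3 : m % p < p := Int.emod_lt_of_pos _ hp'
  refine ⟨(m % p).toNat, by omega, ?_⟩
  have h4 : y ^ (m % p).toNat = y ^ (m % p) := by
    rw [← zpow_natCast, Int.toNat_of_nonneg h2]
  have h5 : y ^ m = (y ^ p) ^ (m / p) * y ^ (m % p) := by
    rw [← zpow_natCast, ← zpow_mul, ← zpow_add, Int.mul_ediv_add_emod]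
  simp only []
  rw [h4, h5, mul_assoc, mul_inv_cancel_right]
  exact H.mul_mem hh (H.zpow_mem hyp _)

theorem eq_zero_of_pow_mem {p : ℕ} (hp : p.Prime) {H : Subgroup G} {y : G} (hyH : y ∉ H)
    (hyp : y ^ p ∈ H) {c : ℕ} (hc : c < p) (h : y ^ c ∈ H) : c = 0 := by
  by_contra hne
  have hcop : Nat.Coprime c p := (Nat.coprime_of_lt_prime hne hc hp).symm
  obtain ⟨m, -, hm⟩ := Nat.exists_mul_mod_eq_one_of_coprime hcop hp.one_lt
  apply hyH
  have h1 : y ^ (c * m) = (y ^ p) ^ (c * m / p) * y := by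
    conv_lhs => rw [← Nat.div_add_mod (c * m) p, hm, pow_add, pow_mul, pow_one]
  have h2 : y ^ (c * m) ∈ H := by rw [pow_mul]; exact H.pow_mem h _
  rw [h1] at h2
  exact (H.mul_mem_cancel_left (H.pow_mem hyp _)).1 h2

theorem schreier {p : ℕ} (hp : p.Prime) {H N : Subgroup G} [N.Normal] (hN : N ≤ H) {y : G}
    (hy : ∀ h ∈ H, y * h * y⁻¹ ∈ H) (hyp : y ^ p ∈ H) (hyH : y ∉ H)
    {ι : Type} (z : ι → G) (c : ι → ℕ) (hc : ∀ i, z i * (y ^ c i)⁻¹ ∈ H)
    (hK : H ≤ Subgroup.closure (Set.range z) ⊔ N) :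
    H = Subgroup.closure (Set.range (Sum.elim
      (fun q : ι × Fin p => ic (z q.1 * (y ^ c q.1)⁻¹) y q.2) (fun _ : Unit => y ^ p))) ⊔ N := by
  set U := Subgroup.closure (Set.range (Sum.elim
      (fun q : ι × Fin p => ic (z q.1 * (y ^ c q.1)⁻¹) y q.2) (fun _ : Unit => y ^ p))) ⊔ N
    with hU
  have hUH : U ≤ H := by
    refine sup_le ?_ hN
    rw [Subgroup.closure_le]
    rintro _ ⟨q | u, rfl⟩
    · exact ic_mem hy (hc _) _
    · exact hyp
  have hypU : y ^ p ∈ U :=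
    Subgroup.mem_sup_left (Subgroup.subset_closure ⟨Sum.inr (), rfl⟩)
  let T : Subgroup G :=
    { carrier := {g | ∀ a : ℕ, y ^ a * g * (y ^ a)⁻¹ ∈ U}
      one_mem' := by intro a; simp
      mul_mem' := by
        intro g h hg hh a
        have : y ^ a * (g * h) * (y ^ a)⁻¹
            = (y ^ a * g * (y ^ a)⁻¹) * (y ^ a * h * (y ^ a)⁻¹) := by group
        rw [this]
        exact U.mul_mem (hg a) (hh a)
      inv_mem' := by
        intro g hg a
        have : y ^ a * g⁻¹ * (y ^ a)⁻¹ = (y ^ a * g * (y ^ a)⁻¹)⁻¹ := by group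
        rw [this]
        exact U.inv_mem (hg a) }
  have hTU : T ≤ U := fun g hg => by simpa using hg 0
  have hyT : ∀ h ∈ T, y * h * y⁻¹ ∈ T := by
    intro h hh a
    have : y ^ a * (y * h * y⁻¹) * (y ^ a)⁻¹ = y ^ (a + 1) * h * (y ^ (a + 1))⁻¹ := by
      rw [pow_succ]; group
    rw [this]
    exact hh _
  have hypT : y ^ p ∈ T := by
    intro a
    have : y ^ a * y ^ p * (y ^ a)⁻¹ = y ^ p := by group
    rw [this]; exact hypU
  have hwT : ∀ i, z i * (y ^ c i)⁻¹ ∈ T := by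
    intro i a
    set w := z i * (y ^ c i)⁻¹
    have h1 : ∀ j < p, ic w y j ∈ U := fun j hj =>
      Subgroup.mem_sup_left (Subgroup.subset_closure ⟨Sum.inl (i, ⟨j, hj⟩), rfl⟩)
    have h2 := conj_ic h1 (a % p) 0 (by simpa using Nat.mod_lt a hp.pos)
    have h3 : y ^ a = (y ^ p) ^ (a / p) * y ^ (a % p) := by
      rw [← pow_mul, ← pow_add, Nat.div_add_mod]
    have : y ^ a * w * (y ^ a)⁻¹
        = (y ^ p) ^ (a / p) * (y ^ (a % p) * ic w y 0 * (y ^ (a % p))⁻¹) * ((y ^ p) ^ (a / p))⁻¹ := by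
      rw [h3, ic]
      simp only [mul_inv_rev, mul_assoc]
    rw [this]
    exact U.mul_mem (U.mul_mem (U.pow_mem hypU _) h2) (U.inv_mem (U.pow_mem hypU _))
  have hNT : N ≤ T := fun g hg a =>
    Subgroup.mem_sup_right (Subgroup.Normal.conj_mem inferInstance g hg _)
  have hKT : Subgroup.closure (Set.range z) ⊔ N ≤ T ⊔ Subgroup.zpowers y := by
    refine sup_le ?_ (hNT.trans le_sup_left)
    rw [Subgroup.closure_le]
    rintro _ ⟨i, rfl⟩
    have : z i = z i * (y ^ c i)⁻¹ * y ^ c i := by group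
    rw [this]
    exact Subgroup.mul_mem_sup (hwT i) (Subgroup.npow_mem_zpowers y _)
  refine le_antisymm (fun h hh => ?_) hUH
  obtain ⟨a, ha, h1⟩ := exists_coset hp.pos hyT hypT (hKT (hK hh))
  have h2 : y ^ a ∈ H := by
    have := hUH (hTU h1)
    exact H.inv_mem_iff.1 ((H.mul_mem_cancel_left hh).1 this)
  have h3 := eq_zero_of_pow_mem hp hyH hyp ha h2
  subst h3
  simpa using hTU h1

theorem exists_hom {p : ℕ} [Fact p.Prime] {H : Subgroup G} {y : G}
    (hy : ∀ h ∈ H, y * h * y⁻¹ ∈ H) (hyp : y ^ p ∈ H) (hyH : y ∉ H) {K : Subgroup G}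
    (hK : K = H ⊔ Subgroup.zpowers y) :
    H.relIndex K = p ∧ ∃ φ : K →* Multiplicative (ZMod p), ∀ g : K, φ g = 1 ↔ (g : G) ∈ H := by
  have hp : p.Prime := Fact.out
  have hle : K ≤ Subgroup.normalizer (H : Set G) := by
    rw [hK]
    refine sup_le H.le_normalizer ?_
    rw [Subgroup.zpowers_le]; exact mem_normalizer_of hp.pos hy hyp
  have hn : (H.subgroupOf K).Normal := Subgroup.normal_subgroupOf_of_le_normalizer hle
  have hyK : y ∈ K := by rw [hK]; exact Subgroup.mem_sup_right (Subgroup.mem_zpowers y)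
  let yb : K ⧸ H.subgroupOf K := QuotientGroup.mk ⟨y, hyK⟩
  have h1 : ∀ q, q ∈ Subgroup.zpowers yb := by
    intro q
    obtain ⟨g, rfl⟩ := QuotientGroup.mk_surjective q
    obtain ⟨c, -, hc⟩ := exists_coset hp.pos hy hyp (z := (g : G)) (hK.le g.2)
    have : (QuotientGroup.mk g : K ⧸ H.subgroupOf K) = yb ^ c := by
      rw [← mul_inv_eq_one]
      simp only [yb]
      rw [← QuotientGroup.mk_pow, ← QuotientGroup.mk_inv, ← QuotientGroup.mk_mul,
        QuotientGroup.eq_one_iff, Subgroup.mem_subgroupOf]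
      simpa using hc
    rw [this]
    exact Subgroup.npow_mem_zpowers _ _
  have h2 : orderOf yb = p := by
    apply orderOf_eq_prime
    · simp only [yb]
      rw [← QuotientGroup.mk_pow, QuotientGroup.eq_one_iff, Subgroup.mem_subgroupOf]
      simpa using hyp
    · simp only [yb]
      rw [Ne, QuotientGroup.eq_one_iff, Subgroup.mem_subgroupOf]
      exact hyH
  have h3 : Nat.card (K ⧸ H.subgroupOf K) = p := by
    rw [← orderOf_eq_card_of_forall_mem_zpowers h1, h2]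
  refine ⟨h3, ?_⟩
  have h4 : Nat.card (Multiplicative (ZMod p)) = p := by simp
  let e := mulEquivOfPrimeCardEq h3 h4
  refine ⟨e.toMonoidHom.comp (QuotientGroup.mk' _), fun g => ?_⟩
  simp only [MulEquiv.toMonoidHom_eq_coe, MonoidHom.coe_comp, MonoidHom.coe_coe,
    QuotientGroup.coe_mk', Function.comp_apply, EmbeddingLike.map_eq_one_iff,
    QuotientGroup.eq_one_iff, Subgroup.mem_subgroupOf]

end Pool.Agent.H257Z.GS
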